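import Pool.Agent.HopfEnd.Final
import Pool.Agent.HopfTw.Lift

/-!
# The classes `S` and `T` defined by one standard end
-/

set_option autoImplicit false

open scoped ContDiff Topology Manifold
open Set Filter Metric Topology

namespace Pool.Agent.HopfEnd

open Pool.Agent.HopfCov Pool.Agent.HopfCov.Smooth Pool.Agent.HopfFin

/-- one end of the punctured space is standard -/
theorem oneEnd_punctured : OneEnd Punctured :=
  ⟨Homeomorph.refl V4, 1, one_pos, Or.inl fun x _ => LDA_id (X := V4) x⟩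

/-- **Theorem E** as an equivalence -/
theorem endStandard_iff {M : Mfd4} (hM : HomeoS1S3 M ∨ HomeoTwisted M) :
    EndStandard M ↔ ∃ q : Punctured → M, IsCoveringMap q ∧ LocalDiffeo q :=
  ⟨univ_of_endStandard hM, fun ⟨q, h1, h2⟩ => ⟨Punctured, ⟨q, h1, h2⟩, Or.inl oneEnd_punctured⟩⟩

theorem homeoS1S3_of_nearCircle {M : Mfd4} (h : NearCircle M) : HomeoS1S3 M := by
  obtain ⟨F, -, -⟩ := h
  exact ⟨F⟩

theorem homeoTwisted_of_nearSection {M : Mfd4} (h : NearSection M) : HomeoTwisted M := by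
  obtain ⟨X, q, F0, hq, -⟩ := h
  have hq1 := orbit_eq.1 hq
  rw [rho_eq] at hq1
  obtain ⟨FX⟩ : HomeoTwisted X := hq1.homeoTwisted PD_TT
  let F : M.carrier ≃ₜ X.carrier := F0
  exact ⟨F.trans FX⟩

/-- the class `S` is defined by one standard end -/
theorem inS_iff {M : Mfd4} : InS M ↔ NearCircle M ∧ EndStandard M := by
  constructor
  · rintro ⟨h1, h2⟩
    exact ⟨h1, (endStandard_iff (Or.inl (homeoS1S3_of_nearCircle h1))).2 h2⟩
  · rintro ⟨h1, h2⟩
    exact ⟨h1, (endStandard_iff (Or.inl (homeoS1S3_of_nearCircle h1))).1 h2⟩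

/-- the class `T` is defined by one standard end -/
theorem inT_iff {M : Mfd4} : InT M ↔ NearSection M ∧ EndStandard M := by
  constructor
  · rintro ⟨h1, h2⟩
    exact ⟨h1, (endStandard_iff (Or.inr (homeoTwisted_of_nearSection h1))).2 h2⟩
  · rintro ⟨h1, h2⟩
    exact ⟨h1, (endStandard_iff (Or.inr (homeoTwisted_of_nearSection h1))).1 h2⟩

end Pool.Agent.HopfEnd
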