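import Pool.Agent.HopfEnd.Final
import Pool.Agent.HopfRem.TwModel

/-!
# The composition of the two coverings `ℝ⁴ ∖ 0 → N → M` is a covering

Plan (model: `deck_of_model` in `HopfCov/Deck.lean`). Let `p₀ : V4 → M` be a covering: for
`M ≃ₜ S¹ × S³` (`F`) the map `x ↦ F.symm (Circle.exp (polar x).1, (polar x).2)`, see the proof of
`specDeck`; for `M ≃ₜ Twisted` the map `F.symm ∘ dtwP`, see the proof of `deckTwisted`
(`isCoveringMap_halving norm_dtwT continuous_dtwP dtwP_surj dtwP_fib`), both surjective. `V4` is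
simply connected and locally path connected (instances as in `deck_of_model`). Choose
`y₀ : Punctured`, `x₀ : V4` with `p₀ x₀ = q (p y₀)` (`p₀` is surjective).
(i) `r : C(V4, N)`, lift of `p₀` through `q`, `r x₀ = p y₀` (`existsUnique_continuousMap_lifts`);
(ii) `f' : C(V4, V4)`, lift of `r` through `p`, `f' x₀ = y₀`;
(iii) `f : C(V4, V4)`, lift of `q ∘ p` through `p₀`, `f y₀ = x₀`.
Then `p₀ (f (f' x)) = q (p (f' x)) = q (r x) = p₀ x`, hence `f (f' x) = x` (`eq_of_comp_eq`);
`q (p (f' (f y))) = p₀ (f y) = q (p y)`, hence `p (f' (f y)) = p y` (`hq.eq_of_comp_eq`), hence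
`f' (f y) = y` (`hp.eq_of_comp_eq`). So `f` is a homeomorphism `Θ` and `q ∘ p = p₀ ∘ Θ` is a covering
(`IsCoveringMap.comp_homeomorph`).
-/

set_option autoImplicit false

open scoped ContDiff Topology Manifold
open Set Filter Metric Topology

namespace Pool.Agent.HopfEnd

open Pool.Agent.HopfCov Pool.Agent.HopfCov.Smooth

private theorem aux_Comp {M N : Type} [TopologicalSpace M] [TopologicalSpace N]
    {p₀ : V4 → M} (hc : IsCoveringMap p₀) (hs : Function.Surjective p₀) {q : N → M}
    (hq : IsCoveringMap q) {p : V4 → N} (hp : IsCoveringMap p) :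
    IsCoveringMap fun x => q (p x) := by
  have : LocallyCompactSpace V4 := V4.isOpen.isOpenEmbedding_subtypeVal.locallyCompactSpace
  have : LocallyPathConnectedSpace V4 := V4.isOpen.locallyPathConnectedSpace
  have : SimplyConnectedSpace V4 := specSimplyConnected E4 (by simp)
  obtain ⟨y₀⟩ : Nonempty V4 := inferInstance
  obtain ⟨x₀, hx₀⟩ := hs (q (p y₀))
  obtain ⟨r, ⟨hr0, hr⟩, -⟩ := hq.existsUnique_continuousMap_lifts
    (⟨p₀, hc.continuous⟩ : C(V4, M)) x₀ (p y₀) hx₀.symm
  obtain ⟨f', ⟨hf'0, hf'⟩, -⟩ := hp.existsUnique_continuousMap_lifts r x₀ y₀ hr0.symm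
  obtain ⟨f, ⟨hf0, hf⟩, -⟩ := hc.existsUnique_continuousMap_lifts
    (⟨fun x => q (p x), hq.continuous.comp hp.continuous⟩ : C(V4, M)) y₀ x₀ hx₀
  have hr' : ∀ x, q (r x) = p₀ x := fun x => congrFun hr x
  have hf'' : ∀ x, p (f' x) = r x := fun x => congrFun hf' x
  have hfx : ∀ x, p₀ (f x) = q (p x) := fun x => congrFun hf x
  have h1 : (fun x => f (f' x)) = fun x => x :=
    hc.eq_of_comp_eq (f.continuous.comp f'.continuous) continuous_id
      (by
        funext x
        change p₀ (f (f' x)) = p₀ x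
        rw [hfx, hf'', hr']) x₀ (by rw [hf'0, hf0])
  have h2 : (fun x => p (f' (f x))) = fun x => p x :=
    hq.eq_of_comp_eq (hp.continuous.comp (f'.continuous.comp f.continuous)) hp.continuous
      (by
        funext x
        change q (p (f' (f x))) = q (p x)
        rw [hf'', hr', hfx]) y₀ (by rw [hf0, hf'0])
  have h3 : (fun x => f' (f x)) = fun x => x :=
    hp.eq_of_comp_eq (f'.continuous.comp f.continuous) continuous_id h2 y₀
      (by rw [hf0, hf'0])
  let Θ : V4 ≃ₜ V4 :=
    { toFun := f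
      invFun := f'
      left_inv := fun x => congrFun h3 x
      right_inv := fun x => congrFun h1 x
      continuous_toFun := f.continuous
      continuous_invFun := f'.continuous }
  have h4 : (fun x => q (p x)) = p₀ ∘ Θ := by
    funext x
    exact (hfx x).symm
  rw [h4]
  exact hc.comp_homeomorph Θ

private theorem model1_Comp : ∃ p₀ : V4 → Circle × sphere (0 : E4) 1,
    IsCoveringMap p₀ ∧ Function.Surjective p₀ := by
  obtain ⟨p₀, hp₀⟩ : ∃ p₀ : V4 → Circle × sphere (0 : E4) 1,
      p₀ = fun x => (Circle.exp (polar x).1, (polar x).2) := ⟨_, rfl⟩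
  have hl : IsLocalHomeomorph p₀ := by
    rw [hp₀]
    exact (isLocalHomeomorph_expProd (sphere (0 : E4) 1)).comp polar.isLocalHomeomorph
  have hs : Function.Surjective p₀ := by
    rintro ⟨z, u⟩
    refine ⟨polar.symm (Complex.arg (z : ℂ), u), ?_⟩
    simp only [hp₀, polar.apply_symm_apply, Circle.exp_arg]
  have hf : ∀ x y, p₀ x = p₀ y ↔ ∃ n : ℤ, y = (polarShift ^ n) x := by
    intro x y
    simp only [hp₀, Prod.mk.injEq, Circle.exp_eq_exp]
    constructor
    · rintro ⟨⟨m, hm⟩, hu⟩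
      refine ⟨-m, polar.injective ?_⟩
      rw [polar_shift_zpow]
      refine Prod.ext ?_ hu.symm
      simp only
      push_cast
      linarith
    · rintro ⟨n, rfl⟩
      rw [polar_shift_zpow]
      refine ⟨⟨-n, ?_⟩, rfl⟩
      simp only
      push_cast
      ring
  have hfree : ∀ (k : ℤ) (x : V4), (polarShift ^ k) x = x → k = 0 := by
    intro k x h
    have h1 := polar_shift_zpow k x
    rw [h] at h1
    have h2 : (polar x).1 = (polar x).1 + k * (2 * Real.pi) := congrArg Prod.fst h1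
    have h3 : (k : ℝ) * (2 * Real.pi) = 0 := by linarith
    rcases mul_eq_zero.mp h3 with h4 | h4
    · exact_mod_cast h4
    · exact absurd h4 (by positivity)
  exact ⟨p₀, isCoveringMap_of_orbits hl hs hf hfree, hs⟩

private theorem model2_Comp : ∃ p₀ : V4 → Twisted, IsCoveringMap p₀ ∧ Function.Surjective p₀ := by
  obtain ⟨τ, q₀, h1, h2, h3, h4⟩ := twisted_model
  refine ⟨q₀, isCoveringMap_halving (τ := τ) (fun x => ?_) h3.continuous h2 h4, h2⟩
  rw [← h1 x]
  show ‖(2⁻¹ : ℝ) • Smooth.refl0 (x : E4)‖ = 2⁻¹ * ‖(x : E4)‖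
  rw [norm_smul, LinearIsometryEquiv.norm_map, Real.norm_of_nonneg (by norm_num)]

theorem cover_comp {M N : Mfd4} (hM : HomeoS1S3 M ∨ HomeoTwisted M) {q : N → M}
    (hq : IsCoveringMap q) {p : Punctured → N} (hp : IsCoveringMap p) :
    IsCoveringMap fun x => q (p x) := by
  rcases hM with hM | hM
  · obtain ⟨F⟩ := hM
    have F' : M.carrier ≃ₜ Circle × sphere (0 : E4) 1 := F
    obtain ⟨p₀, hc, hs⟩ := model1_Comp
    exact aux_Comp (hc.homeomorph_comp F'.symm) (F'.symm.surjective.comp hs) hq hp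
  · obtain ⟨F⟩ := hM
    obtain ⟨p₀, hc, hs⟩ := model2_Comp
    exact aux_Comp (hc.homeomorph_comp F.symm) (F.symm.surjective.comp hs) hq hp

end Pool.Agent.HopfEnd
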