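import Pool.Agent.HopfEnd.Final
import Pool.Agent.HopfFin.OffIn
import Pool.Agent.HopfTw.OffIn

/-!
# Existence of coverings with many sheets, standard off one point

Plan of `cover_of_orbit`. `q (p' x) = p x` defines `q` (`p'` is surjective, `Function.surjInv`; the
fibres of `p'` are the orbits of `g ^ m`, contained in the fibres of `p`). `q` is a local
diffeomorphism: `LDA.of_comp_right` (HopfRem/ParRG) at every point `p' x`, with `hp'.loc x` and
`hp.loc x`. `q` is a covering: `isLocalHomeomorph_iff_isCoveringMap` (Mathlib; `N` compact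
Hausdorff, `M` Hausdorff). Sheets: the fibre over `p x` is `{p' ((g ^ i) x) | i < m}` and these are
pairwise different, because `(g ^ k) x = x` implies `k = 0` (`free_of_contr hG hc`); every integer
is `i + m * j` with `0 ≤ i < m`. `Set.ncard_image_of_injOn` with `Finset.range m` or
`Set.Iio m`.

Plan of `exists_cover_off`. `orbit_of_homeo`, `orbit_of_twisted` (HopfCov/Bridge) give an
`OrbitMap g₀ p`, `exists_gen` (HopfCov) a contracting generator `g` with extension `G`, `PD 1 G` or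
`PD (-1) G`. `hc.trap` gives `m₀` with `Trap (G ^ m)` for `m ≥ m₀`. For `m ≥ max m₀ 1` the map
`G ^ m` is `PD 1` or `PD (-1)` (`PD.zpow'` or induction). If `PD 1 (G ^ m)`: `exists_orbit_space`
(HopfCov/Push) gives a manifold `N` with carrier `Circle × sphere 0 1` (see `exists_of_class` in
HopfCov/Bridge2 for the instances) and an `OrbitMap g' p'` with `Extends (G ^ m) g'`, so
`g' = g ^ m`. If `PD (-1) (G ^ m)`: `exists_orbit_of` (HopfRem/Class1). Then `cover_of_orbit`.
Connectedness: `OrbitMap.connected` (`hp.connected`).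
-/

set_option autoImplicit false

open scoped ContDiff Topology Manifold
open Set Filter Metric Topology

namespace Pool.Agent.HopfEnd

open Pool.Agent.HopfCov Pool.Agent.HopfCov.Smooth

theorem cover_of_orbit {M N : Mfd4} (hM2 : T2Space M) (hN2 : T2Space N) (hN : CompactSpace N)
    {p : V4 → M.carrier} {g : V4 ≃ₜ V4} {G : E4 ≃ₜ E4} (hp : OrbitMap g p) (hG : Extends G g)
    (hc : Contr G) {m : ℕ} (hm : 0 < m) {p' : V4 → N.carrier} (hp' : OrbitMap (g ^ m) p') :
    ∃ q : N → M, Cover m q ∧ ∀ x, q (p' x) = p x := by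
  have hfree : ∀ (k : ℤ) (x : V4), (g ^ k) x = x → k = 0 := fun k x hx =>
    free_of_contr hG hc k x hx
  have hadd : ∀ (a b : ℤ) (x : V4), (g ^ (a + b)) x = (g ^ a) ((g ^ b) x) := by
    intro a b x
    rw [zpow_add]
    rfl
  have hmul : ∀ (n : ℤ), (g ^ m) ^ n = g ^ ((m : ℤ) * n) := by
    intro n
    rw [zpow_mul, zpow_natCast]
  have hfac : ∀ x y, p' x = p' y → p x = p y := by
    intro x y h
    obtain ⟨n, rfl⟩ := (hp'.fib x y).1 h
    exact (hp.fib x _).2 ⟨m * n, by rw [hmul]⟩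
  obtain ⟨q, hq⟩ : ∃ q : N.carrier → M.carrier, ∀ x, q (p' x) = p x :=
    ⟨fun y => p (Function.surjInv hp'.surj y), fun x => hfac _ _ (Function.surjInv_eq hp'.surj _)⟩
  have hloc : IsLocalDiffeomorph (𝓡 4) (𝓡 4) ∞ (M := N.carrier) (N := M.carrier) q := by
    intro y
    obtain ⟨x, rfl⟩ := hp'.surj y
    refine LDA.of_comp_right (X := V4) (Y := N.carrier) (Z := M.carrier) (f := p') (g := q)
      (hp'.loc x) ?_
    exact LDA.congr' (X := V4) (Y := M.carrier) (hp.loc x)
      (Eventually.of_forall fun z => (hq z).symm)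
  have hcov : IsCoveringMap q := isLocalHomeomorph_iff_isCoveringMap.1 hloc.isLocalHomeomorph
  refine ⟨q, ⟨hcov, hloc, fun y => ?_⟩, hq⟩
  obtain ⟨x, rfl⟩ := hp.surj y
  have hset : q ⁻¹' {p x} = (fun i : ℕ => p' ((g ^ (i : ℤ)) x)) '' (Finset.range m : Set ℕ) := by
    ext z
    constructor
    · intro hz
      obtain ⟨w, rfl⟩ := hp'.surj z
      have h1 : p x = p w := by
        have h2 : q (p' w) = p x := hz
        rw [← h2, hq]
      obtain ⟨n, hn⟩ := (hp.fib x w).1 h1
      have hm' : (0 : ℤ) < m := by exact_mod_cast hm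
      have h3 : 0 ≤ n % m := Int.emod_nonneg _ hm'.ne'
      have h4 : n % m < m := Int.emod_lt_of_pos _ hm'
      obtain ⟨i, hi⟩ := Int.eq_ofNat_of_zero_le h3
      refine ⟨i, ?_, ?_⟩
      · have h5 : i < m := by omega
        simpa using h5
      · refine (hp'.fib _ _).2 ⟨n / m, ?_⟩
        rw [hmul, ← hadd, hn, ← hi, Int.mul_ediv_add_emod]
    · rintro ⟨i, -, rfl⟩
      show q (p' ((g ^ (i : ℤ)) x)) = p x
      rw [hq]
      exact ((hp.fib x _).2 ⟨i, rfl⟩).symm
  have hinj : InjOn (fun i : ℕ => p' ((g ^ (i : ℤ)) x)) (Finset.range m : Set ℕ) := ?_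
  · rw [hset, hinj.ncard_image, Set.ncard_coe_finset, Finset.card_range]
  intro i hi j hj hij
  have hi' : i < m := by simpa using hi
  have hj' : j < m := by simpa using hj
  obtain ⟨n, hn⟩ := (hp'.fib _ _).1 hij
  rw [hmul, ← hadd] at hn
  have h1 : (g ^ (-(j : ℤ) + ((m : ℤ) * n + i))) x = x := by
    rw [hadd, ← hn, ← hadd, neg_add_cancel, zpow_zero]
    rfl
  have h2 := hfree _ _ h1
  have hm' : (0 : ℤ) < m := by exact_mod_cast hm
  have h3 : n = 0 := by
    by_contra hne
    rcases lt_or_gt_of_ne hne with h | h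
    · have h4 : (m : ℤ) * n ≤ m * (-1) := mul_le_mul_of_nonneg_left (by omega) hm'.le
      omega
    · have h4 : (m : ℤ) * 1 ≤ m * n := mul_le_mul_of_nonneg_left (by omega) hm'.le
      omega
  rw [h3, mul_zero] at h2
  omega

/-- for all large `m` there are connected coverings with `m` sheets -/
theorem exists_cover {M : Mfd4} (hM : HomeoS1S3 M ∨ HomeoTwisted M) {p : Punctured → M}
    (hp : IsCoveringMap p) (hpl : LocalDiffeo p) :
    ∃ m₀ : ℕ, ∀ m ≥ m₀, ∃ (N : Mfd4) (q : N → M), Closed N ∧ Cover m q := by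
  obtain ⟨a1, a2, g₀, h5⟩ := hM.elim (fun h => orbit_of_homeo h hp hpl)
    (fun h => orbit_of_twisted h hp hpl)
  have a1' : T2Space M.carrier := a1
  have a2' : CompactSpace M.carrier := a2
  obtain ⟨g, G, h6, h7, h8, h9⟩ := exists_gen h5
  obtain ⟨m₀, hm₀⟩ := h9.trap
  refine ⟨max m₀ 1, fun m hm => ?_⟩
  have hm1 : 0 < m := lt_of_lt_of_le one_pos ((le_max_right m₀ 1).trans hm)
  have ht : Trap (G ^ m) := hm₀ m ((le_max_left m₀ 1).trans hm)
  have hcm : Contr (G ^ m) := h9.pow hm1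
  have hE : Extends (G ^ m) (g ^ m) := h7.pow m
  have hPD : PD 1 (G ^ m) ∨ PD (-1) (G ^ m) := by
    rcases h8 with h8 | h8
    · exact Or.inl (h8.pow m)
    · rcases Nat.even_or_odd m with h10 | h10
      · exact Or.inl (h8.pow_even h10)
      · exact Or.inr (h8.pow_odd h10)
  rcases hPD with hPD | hPD
  · obtain ⟨g', C, p', e1, e2, e3⟩ := exists_orbit_space hPD ht hcm
    obtain rfl : g' = g ^ m := e1.eq_of hE
    let N : Mfd4 := ⟨Circle × sphere (0 : E4) 1, inferInstance, C, e2⟩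
    have b1 : T2Space N.carrier := inferInstanceAs (T2Space (Circle × sphere (0 : E4) 1))
    have b2 : CompactSpace N.carrier :=
      inferInstanceAs (CompactSpace (Circle × sphere (0 : E4) 1))
    have e3' : OrbitMap (g ^ m) (M := N.carrier) p' := e3
    obtain ⟨q, hq, -⟩ := cover_of_orbit (M := M) (N := N) a1' b1 b2 h6 h7 h9 hm1 e3'
    exact ⟨N, q, ⟨b2, b1, e3'.connected⟩, hq⟩
  · obtain ⟨N, p', hN⟩ := exists_orbit_of hPD ht hcm
    obtain ⟨b1, b2, -, -, -, g', hg', hp'⟩ := hN.data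
    obtain rfl : g' = g ^ m := hg'.eq_of hE
    obtain ⟨q, hq, -⟩ := cover_of_orbit (M := M) (N := N) a1' b1 b2 h6 h7 h9 hm1 hp'
    exact ⟨N, q, hN.closed, hq⟩

end Pool.Agent.HopfEnd
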