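import Pool.Agent.HopfEnd.Germ
import Pool.Agent.HopfRem.ParRG
import Pool.Agent.HopfCov.Bridge

/-!
# A universal covering with one standard end

`R` is a topological space homeomorphic to `ℝ⁴`, `X` a smooth manifold homeomorphic to `R ∖ y` which
covers a smooth manifold homeomorphic to `S¹ × S³` or to the twisted product, and `φ` a chart of `R`
near `y` which is smooth on `X`. Then `φ` extends (after restriction) to a homeomorphism `R → ℝ⁴`
which is a diffeomorphism on `X`.
-/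

set_option autoImplicit false

open scoped ContDiff Topology Manifold
open Set Filter Metric Topology

namespace Pool.Agent.HopfEnd

open Pool.Agent.HopfCov Pool.Agent.HopfCov.Smooth

/-- the contracting generator of the deck group -/
theorem exists_deck {X : Type} [TopologicalSpace X] {M : Mfd4}
    (hM : HomeoS1S3 M ∨ HomeoTwisted M) (e : X ≃ₜ V4) {p : X → M} (hp : IsCoveringMap p) :
    ∃ (g : V4 ≃ₜ V4) (G : E4 ≃ₜ E4), (∀ x : V4, G x = g x) ∧ G 0 = 0 ∧ Contr G ∧
      ∀ x : V4, p (e.symm (g x)) = p (e.symm x) := by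
  have hp0 : IsCoveringMap (p ∘ e.symm) := hp.comp_homeomorph e.symm
  have key : Function.Surjective (p ∘ e.symm) ∧ T2Space M.carrier ∧ CompactSpace M.carrier ∧
      ∃ g : V4 ≃ₜ V4, ∀ x y : V4, (p ∘ e.symm) x = (p ∘ e.symm) y ↔ ∃ n : ℤ, y = (g ^ n) x := by
    rcases hM with hM | hM
    · obtain ⟨F⟩ := hM
      have hM' : Nonempty (M.carrier ≃ₜ Circle × sphere (0 : E4) 1) := ⟨F⟩
      obtain ⟨h1, g, h2⟩ := specDeck M.carrier hM' (p ∘ e.symm) hp0
      have F' : M.carrier ≃ₜ Circle × sphere (0 : E4) 1 := F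
      exact ⟨h1, F'.symm.t2Space, F'.symm.compactSpace, g, h2⟩
    · have := compact_twisted
      obtain ⟨h1, g, h2⟩ := deckTwisted M.carrier hM (p ∘ e.symm) hp0
      obtain ⟨F⟩ := hM
      exact ⟨h1, F.symm.t2Space, F.symm.compactSpace, g, h2⟩
  obtain ⟨hs, hT2, hcpt, g, hfib⟩ := key
  obtain ⟨G, h0, h1, h2⟩ := hContract E4 hdim4 M.carrier g (p ∘ e.symm) hp0.isLocalHomeomorph hs
    hfib
  rcases h2 with h2 | h2
  · refine ⟨g, G, h1, h0, h2, fun x => ?_⟩
    exact ((hfib x (g x)).2 ⟨1, by rw [zpow_one]⟩).symm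
  · refine ⟨g⁻¹, G⁻¹, fun x => ?_, ?_, h2, fun x => ?_⟩
    · have h3 : G ((g⁻¹ : V4 ≃ₜ V4) x) = (x : E4) :=
        (h1 _).trans (congrArg Subtype.val (homeo_apply_inv_self g x))
      conv_lhs => rw [← h3]
      exact inv_apply_self' _ _
    · conv_lhs => rw [← h0]
      exact inv_apply_self' _ _
    · exact ((hfib x ((g⁻¹ : V4 ≃ₜ V4) x)).2 ⟨-1, by rw [zpow_neg_one]⟩).symm

/-- transport of a homeomorphism -/
def trans' {R S : Type} [TopologicalSpace R] [TopologicalSpace S] (H : R ≃ₜ S) (G : S ≃ₜ S) :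
    R ≃ₜ R := (H.trans G).trans H.symm

theorem trans'_pow {R S : Type} [TopologicalSpace R] [TopologicalSpace S] (H : R ≃ₜ S)
    (G : S ≃ₜ S) (n : ℕ) (x : R) : (trans' H G ^ n) x = H.symm ((G ^ n) (H x)) := by
  induction n with
  | zero => exact (H.symm_apply_apply x).symm
  | succ n ih =>
    rw [pow_succ', homeo_mul_apply, ih, pow_succ', homeo_mul_apply]
    show H.symm (G (H (H.symm ((G ^ n) (H x))))) = _
    rw [H.apply_symm_apply]

theorem end_main {R : Type} [TopologicalSpace R] {X M : Mfd4}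
    (hM : HomeoS1S3 M ∨ HomeoTwisted M) (H : R ≃ₜ E4) {y : R} (hHy : H y = 0)
    {ι : X → R} (hι : IsOpenEmbedding ι) (hr : range ι = {y}ᶜ)
    (φ : OpenPartialHomeomorph R E4) (hy : y ∈ φ.source) (hy0 : φ y = 0)
    (hφ : ∀ x : X, ι x ∈ φ.source → LDA (X := X.carrier) (fun z => φ (ι z)) x)
    {p : X → M} (hp : IsCoveringMap p) (hpl : LocalDiffeo p) :
    ∃ Ψ : R ≃ₜ E4, (∀ᶠ x in 𝓝 y, Ψ x = φ x) ∧
      ∀ x : X, LDA (X := X.carrier) (fun z => Ψ (ι z)) x := by
  have hne : ∀ x : X, ι x ≠ y := by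
    intro x hx
    have : ι x ∈ ({y}ᶜ : Set R) := hr ▸ mem_range_self x
    exact this hx
  -- the homeomorphism `X → ℝ⁴ ∖ 0`
  set f : X → V4 := fun x => ⟨H (ι x), fun h0 => hne x (H.injective (h0.trans hHy.symm))⟩ with hf
  have hfe : IsOpenEmbedding f := by
    have h1 : IsOpenEmbedding ((Subtype.val : V4 → E4) ∘ f) := H.isOpenEmbedding.comp hι
    exact IsOpenEmbedding.of_comp f V4.isOpen.isOpenEmbedding_subtypeVal h1
  have hfs : Function.Surjective f := by
    intro v
    have h1 : H.symm (v : E4) ∈ ({y}ᶜ : Set R) := by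
      intro h2
      have h3 : H.symm (v : E4) = y := h2
      have h4 : (v : E4) = 0 := by
        rw [← hHy, ← h3, H.apply_symm_apply]
      exact v.2 h4
    rw [← hr] at h1
    obtain ⟨x, hx⟩ := h1
    refine ⟨x, Subtype.ext ?_⟩
    show H (ι x) = v
    rw [hx, H.apply_symm_apply]
  obtain ⟨e, he⟩ := isHomeomorph_iff_exists_homeomorph.1
    (isHomeomorph_iff_isEmbedding_surjective.2 ⟨hfe.isEmbedding, hfs⟩)
  have hef : ∀ x, (e x : E4) = H (ι x) := by
    intro x
    rw [he]
  have hιe : ∀ v : V4, ι (e.symm v) = H.symm (v : E4) := by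
    intro v
    rw [← H.symm_apply_apply (ι (e.symm v)), ← hef, e.apply_symm_apply]
  obtain ⟨g, G₀, hG₀, hG₀0, hc, hpg⟩ := exists_deck hM e hp
  -- the deck transformations of `X` and of `R`
  set s : X.carrier ≃ₜ X.carrier := trans' e g with hs
  set G : R ≃ₜ R := trans' H G₀ with hG
  have hsp : ∀ x, p (s x) = p x := by
    intro x
    show p (e.symm (g (e x))) = p x
    rw [hpg, e.symm_apply_apply]
  have hsl : ∀ x, LDA (X := X.carrier) (Y := X.carrier) s x := by
    intro x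
    refine LDA.of_comp (X := X.carrier) (Y := X.carrier) (Z := M.carrier) (g := p)
      s.continuous.continuousAt (hpl (s x)) ?_
    have h1 : (fun y => p (s y)) = p := funext hsp
    rw [h1]
    exact hpl x
  have hsk : ∀ (k : ℕ) (x), LDA (X := X.carrier) (Y := X.carrier)
      (fun z => (s ^ k : X.carrier ≃ₜ X.carrier) z) x := by
    intro k
    induction k with
    | zero => intro x; exact LDA_id x
    | succ k ih =>
      intro x
      have h1 : (fun z => (s ^ (k + 1) : X.carrier ≃ₜ X.carrier) z) =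
          fun z => s ((s ^ k : X.carrier ≃ₜ X.carrier) z) := by
        funext z
        rw [pow_succ', homeo_mul_apply]
      rw [h1]
      exact LDA.comp' (f := fun z => (s ^ k : X.carrier ≃ₜ X.carrier) z) (g := s) (hsl _) (ih x)
  have hιs : ∀ x, ι (s x) = G (ι x) := by
    intro x
    show ι (e.symm (g (e x))) = H.symm (G₀ (H (ι x)))
    rw [hιe, ← hG₀, hef]
  have hιk : ∀ (k : ℕ) (x), ι ((s ^ k : X.carrier ≃ₜ X.carrier) x) = (G ^ k) (ι x) := by
    intro k
    induction k with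
    | zero => intro x; rfl
    | succ k ih => intro x; rw [pow_succ', homeo_mul_apply, hιs, ih, pow_succ', homeo_mul_apply]
  have hGy : G y = y := by
    show H.symm (G₀ (H y)) = y
    rw [hHy, hG₀0, ← hHy, H.symm_apply_apply]
  have hAttr : Attr G y := by
    intro x
    refine ⟨H ⁻¹' ball 0 (‖H x‖ + 1), H.continuous.continuousAt.preimage_mem_nhds
      (isOpen_ball.mem_nhds (by rw [mem_ball_zero_iff]; linarith)), fun U hU => ?_⟩
    have h1 : H.symm ⁻¹' U ∈ 𝓝 (0 : E4) := by
      refine H.symm.continuous.continuousAt.preimage_mem_nhds ?_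
      rw [← hHy, H.symm_apply_apply]
      exact hU
    obtain ⟨ε, hε, hε'⟩ := Metric.mem_nhds_iff.1 h1
    obtain ⟨n₀, hn₀⟩ := hc (‖H x‖ + 1) ε hε
    refine ⟨n₀, fun n hn z hz => ?_⟩
    rw [hG, trans'_pow]
    exact hε' (mem_ball_zero_iff.2 (hn₀ n hn _ (mem_ball_zero_iff.1 hz).le))
  -- the germ of `G` in the chart is smooth off the fixed point
  have hreg : ∀ᶠ x in 𝓝 (0 : E4), x ≠ 0 → RG (fun z => φ (G (φ.symm z))) x := by
    have ht0 : (0 : E4) ∈ φ.target := by rw [← hy0]; exact φ.map_source hy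
    have hs0 : φ.symm 0 = y := by rw [← hy0, φ.left_inv hy]
    have h1 : ∀ᶠ x in 𝓝 (0 : E4), x ∈ φ.target ∧ G (φ.symm x) ∈ φ.source := by
      have h2 : Tendsto (fun x => G (φ.symm x)) (𝓝 0) (𝓝 y) := by
        have h3 : ContinuousAt (fun x => G (φ.symm x)) 0 :=
          G.continuous.continuousAt.comp (φ.continuousAt_symm ht0)
        rw [ContinuousAt, hs0, hGy] at h3
        exact h3
      filter_upwards [φ.open_target.mem_nhds ht0, h2.eventually (φ.open_source.mem_nhds hy)]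
        with x hx hx'
      exact ⟨hx, hx'⟩
    filter_upwards [h1] with w hw hw0
    obtain ⟨hwt, hws⟩ := hw
    have h2 : φ.symm w ∈ ({y}ᶜ : Set R) := by
      intro h3
      have h4 : φ.symm w = y := h3
      exact hw0 (by rw [← hy0, ← h4, φ.right_inv hwt])
    rw [← hr] at h2
    obtain ⟨x, hx⟩ := h2
    have hxs : ι x ∈ φ.source := by rw [hx]; exact φ.map_target hwt
    have hx1 : LDA (X := X.carrier) (fun z => φ (ι z)) x := hφ x hxs
    have hx2 : LDA (X := X.carrier) (fun z => φ (ι z)) (s x) := by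
      refine hφ _ ?_
      rw [hιs, hx]
      exact hws
    -- the composition
    have h3 : LDA (X := X.carrier) (fun z => φ (ι (s z))) x :=
      LDA.comp' (X := X.carrier) (Y := X.carrier) (f := s) (g := fun z => φ (ι z)) hx2 (hsl x)
    have h4 : LDA (X := X.carrier) (fun z => φ (G (φ.symm (φ (ι z))))) x := by
      refine h3.congr' ?_
      have h5 : ∀ᶠ z in 𝓝 x, ι z ∈ φ.source :=
        hι.continuous.continuousAt.eventually (φ.open_source.mem_nhds hxs)
      filter_upwards [h5] with z hz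
      rw [φ.left_inv hz, hιs]
    have h5 : LDA (fun z => φ (G (φ.symm z))) (φ (ι x)) :=
      LDA.of_comp_right (X := X.carrier) (f := fun z => φ (ι z))
        (g := fun z => φ (G (φ.symm z))) hx1 h4
    have h6 : φ (ι x) = w := by rw [hx, φ.right_inv hwt]
    rw [h6] at h5
    exact (ldAt_iff.1 h5).self_of_nhds
  obtain ⟨h, Ψ, n, hn, hh0, hhr, hΨφ, hΨG⟩ := standard_end φ hy hy0 hGy hAttr hreg
  refine ⟨Ψ, hΨφ, fun x => ?_⟩
  -- near the end
  obtain ⟨U, hU, hUo, hyU⟩ := _root_.eventually_nhds_iff.1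
    (hΨφ.and (φ.open_source.mem_nhds hy))
  have hnear : ∀ x : X, ι x ∈ U → LDA (X := X.carrier) (fun z => Ψ (ι z)) x := by
    intro x hx
    refine (hφ x (hU _ hx).2).congr' ?_
    have h5 : ∀ᶠ z in 𝓝 x, ι z ∈ U :=
      hι.continuous.continuousAt.eventually (hUo.mem_nhds hx)
    filter_upwards [h5] with z hz
    exact (hU _ hz).1.symm
  obtain ⟨V', hV', hV'U⟩ := hAttr (ι x)
  obtain ⟨k, hk⟩ := hV'U U (hUo.mem_nhds hyU)
  have hkx : (G ^ (n * k)) (ι x) ∈ U :=
    hk (n * k) (Nat.le_mul_of_pos_left k hn) _ (mem_of_mem_nhds hV')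
  have hΨk : ∀ (k : ℕ) (z : R), Ψ ((G ^ (n * k)) z) = (h ^ k) (Ψ z) := by
    intro k
    induction k with
    | zero => intro z; rfl
    | succ k ih =>
      intro z
      rw [Nat.mul_succ, add_comm, pow_add, homeo_mul_apply, hΨG, ih, pow_succ', homeo_mul_apply]
  -- `Ψ ∘ ι = h ^ (-k) ∘ Ψ ∘ ι ∘ s ^ (n k)`
  have h1 : LDA (X := X.carrier) (fun z => Ψ (ι ((s ^ (n * k) : X.carrier ≃ₜ X.carrier) z))) x :=
    LDA.comp' (X := X.carrier) (Y := X.carrier)
      (f := fun z => (s ^ (n * k) : X.carrier ≃ₜ X.carrier) z) (g := fun z => Ψ (ι z))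
      (hnear _ (by rw [hιk]; exact hkx)) (hsk _ x)
  have h2 : (fun z => Ψ (ι ((s ^ (n * k) : X.carrier ≃ₜ X.carrier) z))) =
      fun z => (h ^ k : E4 ≃ₜ E4) (Ψ (ι z)) := by
    funext z
    rw [hιk, hΨk]
  rw [h2] at h1
  have hne0 : Ψ (ι x) ≠ 0 := by
    have h3 : Ψ y = 0 := by rw [hΨφ.self_of_nhds, hy0]
    intro h4
    exact hne x (Ψ.injective (h4.trans h3.symm))
  have hhk : ∀ (k : ℕ) (w : E4), w ≠ 0 → RG (h ^ k : E4 ≃ₜ E4) w := by
    intro k
    induction k with
    | zero => intro w _; exact RG_id w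
    | succ k ih =>
      intro w hw
      rw [pow_succ']
      refine RG.mul (hhr _ ?_) (ih w hw)
      intro h0
      exact hw ((h ^ k).injective (h0.trans (pow_fix hh0 k).symm))
  have h3 : LDA (fun z => (h ^ k : E4 ≃ₜ E4) z) (Ψ (ι x)) := by
    rw [ldAt_iff]
    filter_upwards [isOpen_compl_singleton.mem_nhds hne0] with w hw
    exact hhk k w hw
  exact LDA.of_comp (X := X.carrier) (f := fun z => Ψ (ι z))
    (g := fun z => (h ^ k : E4 ≃ₜ E4) z)
    (Ψ.continuous.comp hι.continuous).continuousAt h3 h1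

end Pool.Agent.HopfEnd
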