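import Pool.Agent.HopfRem.Statement4

/-!
# Definitions for the theorem on one standard end
-/

set_option autoImplicit false

open scoped ContDiff Topology Manifold
open Set Filter Metric

namespace Pool.Agent.HopfCov.Smooth

/-- the standard smooth structure of `ℝ⁴` -/
noncomputable def chartE : ChartedSpace E4 E4 := chartedSpaceSelf E4

theorem smoothE : @IsManifold ℝ _ E4 _ _ E4 _ (𝓡 4) ∞ E4 _ chartE :=
  inferInstanceAs (IsManifold (𝓡 4) ∞ E4)

/-- the smooth manifold `ℝ⁴` -/
noncomputable def Euclid : Mfd4 := ⟨E4, inferInstance, chartE, smoothE⟩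

/-- `R` is homeomorphic to `ℝ⁴` -/
def HomeoR4 (R : Mfd4) : Prop := Nonempty (R ≃ₜ Euclid)

/-- there is a smooth covering `X → M` -/
def Covers (X M : Mfd4) : Prop := ∃ p : X → M, IsCoveringMap p ∧ LocalDiffeo p

/-- `X` is diffeomorphic to the complement of a point `y` of the smooth manifold `R`: there is an
injective local diffeomorphism `X → R` with range `R ∖ y` -/
def PointComplement (X R : Mfd4) : Prop :=
  ∃ (ι : X → R) (y : R), LocalDiffeo ι ∧ Function.Injective ι ∧ Set.range ι = {y}ᶜ

/-- one end of `X` is standard: there is a homeomorphism of `ℝ⁴ ∖ 0` onto `X` which is a local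
diffeomorphism at all points near one of the two ends, the origin or infinity (nothing is assumed
near the other end) -/
def OneEnd (X : Mfd4) : Prop :=
  ∃ (e : Punctured ≃ₜ X) (ε : ℝ), 0 < ε ∧
    ((∀ x, nrm (val x) < ε → LocalDiffeoAt e x) ∨ ∀ x, ε < nrm (val x) → LocalDiffeoAt e x)

/-- `M` has a smooth covering `X` with one standard end, or of the form `R ∖ y` for a smooth
manifold `R` homeomorphic to `ℝ⁴` -/
def EndStandard (M : Mfd4) : Prop :=
  ∃ X : Mfd4, Covers X M ∧ (OneEnd X ∨ ∃ R : Mfd4, HomeoR4 R ∧ PointComplement X R)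

end Pool.Agent.HopfCov.Smooth
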