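import Pool.Agent.HopfTw.Statement
import Pool.Agent.HopfEnd.Statement

/-!
# Definitions for the characterisation of the manifolds with one standard end
-/

set_option autoImplicit false

open scoped ContDiff Topology Manifold
open Set Filter Metric

namespace Pool.Agent.HopfCov.Smooth

/-- `N` is standard off one point: it is homeomorphic to `S¹ × S³` or to the twisted product by a
homeomorphism which is a local diffeomorphism at all points but one -/
def StandardOffPoint (N : Mfd4) : Prop := OffPoint N ∨ OffPointT N

/-- for all large `m` there are connected coverings of `M` with `m` sheets, and all of them are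
standard off one point -/
def LargeCoversOff (M : Mfd4) : Prop :=
  ∃ m₀ : ℕ, ∀ m ≥ m₀, (∃ (N : Mfd4) (q : N → M), ConnectedSpace N ∧ Cover m q) ∧
    ∀ (N : Mfd4) (q : N → M), ConnectedSpace N → Cover m q → StandardOffPoint N

/-- some connected finite covering of `M` is standard off one point -/
def SomeCoverOff (M : Mfd4) : Prop :=
  ∃ (m : ℕ) (N : Mfd4) (q : N → M), ConnectedSpace N ∧ Cover m q ∧ StandardOffPoint N

end Pool.Agent.HopfCov.Smooth
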