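import Pool.Agent.HopfEnd.Classes
import Pool.Agent.HopfEnd.Comp
import Pool.Agent.HopfEnd.CoverEx
import Pool.Agent.HopfEnd.StatementEq
import Pool.Agent.HopfFin.OffIff

/-!
# The characterisation of the manifolds with one standard end
-/

set_option autoImplicit false

open scoped ContDiff Topology Manifold
open Set Filter Metric Topology

namespace Pool.Agent.HopfEnd

open Pool.Agent.HopfCov Pool.Agent.HopfCov.Smooth Pool.Agent.HopfFin Pool.Agent.HopfTw

/-- `ℝ⁴ ∖ 0` is the complement of a point of `ℝ⁴` -/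
theorem punctured_complement : PointComplement Punctured Euclid := by
  refine ⟨val, (0 : E4), fun x => lda_val x, Subtype.val_injective, ?_⟩
  ext z
  constructor
  · rintro ⟨x, rfl⟩
    exact x.2
  · intro hz
    exact ⟨⟨z, hz⟩, rfl⟩

/-- a manifold which is standard off one point is covered by `ℝ⁴ ∖ 0` -/
theorem covers_of_off {N : Mfd4} (h : StandardOffPoint N) :
    ∃ p : Punctured → N, IsCoveringMap p ∧ LocalDiffeo p := by
  rcases h with h | h
  · obtain ⟨F, x₀, hF⟩ := h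
    obtain ⟨X, hX⟩ := exists_S1S3
    have hMX : AlmostDiffeo N X := by
      refine (almost_off (Or.inl hX)).2 ?_
      obtain ⟨Ψ⟩ := hX
      refine ⟨F.trans Ψ.symm.toHomeomorph, x₀, fun x hx => ?_⟩
      have h1 : IsLocalDiffeomorphAt model13 (𝓡 4) ∞ Ψ.symm (F x) :=
        Ψ.symm.isLocalDiffeomorph (F x)
      exact (hF x hx).comp (K := 𝓡 4) (hg := h1)
    exact (inS_of_offPoint hX hMX).univ
  · obtain ⟨X, hX, h1⟩ := h
    exact (inT_of_offPoint hX ((almost_off (Or.inr hX)).2 h1)).univ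

/-- the large coverings are standard off one point -/
theorem large_off {M : Mfd4} (hM : HomeoS1S3 M ∨ HomeoTwisted M) {p : Punctured → M}
    (hp : IsCoveringMap p) (hp' : LocalDiffeo p) :
    ∃ m₀ : ℕ, ∀ m ≥ m₀, ∀ (N : Mfd4) (q : N → M), ConnectedSpace N → Cover m q →
      StandardOffPoint N := by
  obtain ⟨h1, h2, g, h3⟩ := hM.elim (fun h => orbit_of_homeo h hp hp')
    (fun h => orbit_of_twisted h hp hp')
  obtain ⟨m₀, h4⟩ := covers_off_point specMfderiv specSign specModelMap h3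
  refine ⟨m₀, fun m hm N q hN hq => ?_⟩
  obtain ⟨e1, e2⟩ := h4 m hm N q hq.old
  by_cases ho : OrientedBy p ∨ Even m
  · exact Or.inl (e1 ho)
  · rw [not_or, Nat.not_even_iff_odd] at ho
    obtain ⟨T, hT⟩ := exists_twisted
    obtain ⟨L, hL, ρ, hρ, hT1, pT, hpT⟩ := hT.data
    exact Or.inr ⟨T, twistedProduct_iff.2 hT, e2 ho.1 ho.2 L hL ρ hρ T pT hpT⟩

theorem characterisation {M : Mfd4} (hM : HomeoS1S3 M ∨ HomeoTwisted M) :
    List.TFAE [Covers Punctured M, ∃ X : Mfd4, Covers X M ∧ OneEnd X,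
      ∃ R X : Mfd4, HomeoR4 R ∧ PointComplement X R ∧ Covers X M,
      LargeCoversOff M, SomeCoverOff M] ∧
    ∀ R X : Mfd4, HomeoR4 R → PointComplement X R → Covers X M → Diffeomorphic R Euclid := by
  refine ⟨?_, fun R X hR hX ⟨p, hp, hpl⟩ => (complement_standard hM hR hX hp hpl).1⟩
  tfae_have 1 → 2 := fun h => ⟨Punctured, h, oneEnd_punctured⟩
  tfae_have 2 → 1 := fun ⟨X, ⟨p, hp, hpl⟩, h⟩ =>
    univ_of_diffeo (oneEnd_standard hM h hp hpl) hp hpl
  tfae_have 1 → 3 := fun h => ⟨Euclid, Punctured, ⟨Homeomorph.refl _⟩, punctured_complement, h⟩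
  tfae_have 3 → 1 := fun ⟨R, X, hR, hX, p, hp, hpl⟩ =>
    univ_of_diffeo (complement_standard hM hR hX hp hpl).2 hp hpl
  tfae_have 1 → 4 := by
    rintro ⟨p, hp, hpl⟩
    obtain ⟨m₀, h1⟩ := large_off hM hp hpl
    obtain ⟨m₁, h2⟩ := exists_cover hM hp hpl
    refine ⟨max m₀ m₁, fun m hm => ⟨?_, h1 m ((le_max_left _ _).trans hm)⟩⟩
    obtain ⟨N, q, h3, h4⟩ := h2 m ((le_max_right _ _).trans hm)
    exact ⟨N, q, h3.connected, h4⟩
  tfae_have 4 → 5 := by
    rintro ⟨m₀, h⟩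
    obtain ⟨⟨N, q, h1, h2⟩, h3⟩ := h m₀ le_rfl
    exact ⟨m₀, N, q, h1, h2, h3 N q h1 h2⟩
  tfae_have 5 → 1 := by
    rintro ⟨m, N, q, h1, h2, h3⟩
    obtain ⟨p, hp, hpl⟩ := covers_of_off h3
    refine ⟨fun x => q (p x), cover_comp hM h2.cov hp, fun x => ?_⟩
    exact LDA.comp' (X := Punctured.carrier) (Y := N.carrier) (Z := M.carrier) (f := p) (g := q)
      (h2.loc (p x)) (hpl x)
  tfae_finish

end Pool.Agent.HopfEnd
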