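import Pool.Agent.HopfTw.StatementPlus
import Pool.Agent.HopfFin.StatementPlus
import Pool.Agent.HopfFin.StatementSch
import Pool.Agent.HopfEnd.Statement

/-!
# The classes defined by one standard end
-/

set_option autoImplicit false

open scoped ContDiff Topology Manifold
open Set Filter Metric

namespace Pool.Agent.HopfCov.Smooth

/-- smooth structures on `S¹ × S³`, smooth near a circle, with one standard end -/
def ClassS (M : Mfd4) : Prop := NearCircle M ∧ EndStandard M

/-- smooth structures on the twisted product, smooth near a circle, with one standard end -/
def ClassT (M : Mfd4) : Prop := NearSection M ∧ EndStandard M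

/-- the class `C` contains only finitely many diffeomorphism types -/
def FiniteUpToDiffeo (C : Mfd4 → Prop) : Prop :=
  ∃ (n : ℕ) (F : Fin n → Mfd4), ∀ M : Mfd4, C M → ∃ i, Diffeomorphic M (F i)

end Pool.Agent.HopfCov.Smooth
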