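import Pool.Agent.HopfEnd.Classes
import Pool.Agent.HopfEnd.StatementFar
import Pool.Agent.HopfTw.FinalPlus
import Pool.Agent.HopfFin.Schoen

/-!
# The theorems for the classes defined by one standard end
-/

set_option autoImplicit false

open scoped ContDiff Topology Manifold
open Set Filter Metric

namespace Pool.Agent.HopfEnd

open Pool.Agent.HopfCov Pool.Agent.HopfCov.Smooth Pool.Agent.HopfFin Pool.Agent.HopfTw

theorem classS_iff (M : Mfd4) : ClassS M ↔ InS M := inS_iff.symm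

theorem classT_iff (M : Mfd4) : ClassT M ↔ InT M := inT_iff.symm

theorem finS_iff : FiniteUpToDiffeo ClassS ↔ FinitelyMany := by
  simp only [FiniteUpToDiffeo, FinitelyMany, classS_iff]

theorem finT_iff : FiniteUpToDiffeo ClassT ↔ FinitelyManyT := by
  simp only [FiniteUpToDiffeo, FinitelyManyT, classT_iff]

theorem plus_S (h : ∃ M : Mfd4, ClassS M ∧ ¬ OffPoint M) : ∃ N : ℕ → Mfd4,
    (∀ k, ClassS (N k) ∧ ¬ OffPoint (N k) ∧ VirtuallyStandard (N k)) ∧
    ∀ i j, i ≠ j → ¬ Diffeomorphic (N i) (N j) := by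
  obtain ⟨M, hM, hO⟩ := h
  simp only [classS_iff] at hM ⊢
  exact infinite_plus hM hO

theorem plus_T (h : ∃ M : Mfd4, ClassT M ∧ ¬ OffPointT M) : ∃ N : ℕ → Mfd4,
    (∀ k, ClassT (N k) ∧ ¬ OffPointT (N k) ∧ VirtuallyStandardT (N k)) ∧
    ∀ i j, i ≠ j → ¬ Diffeomorphic (N i) (N j) := by
  obtain ⟨M, hM, hO⟩ := h
  simp only [classT_iff] at hM ⊢
  exact infinite_plus_T hM hO

theorem fin_S : FiniteUpToDiffeo ClassS ↔
    (∀ M : Mfd4, ClassS M → OffPoint M) ∧ derD.relIndex grpD ≠ 0 := by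
  rw [finS_iff, finite_iff]
  simp only [classS_iff]

theorem fin_T : FiniteUpToDiffeo ClassT ↔
    (∀ M : Mfd4, ClassT M → OffPointT M) ∧ derP.relIndex grpD ≠ 0 := by
  rw [finT_iff, finite_iff_T]
  simp only [classT_iff]

theorem unique_ST : ((∀ M : Mfd4, ClassS M → DiffeoS1S3 M) ∧ ∀ M : Mfd4, ClassT M → TwistedProduct M) ↔
    Schoenflies ∧ FiniteUpToDiffeo ClassS ∧ FiniteUpToDiffeo ClassT := by
  rw [finS_iff, finT_iff, ← schoenflies_iff, ← unique_both]
  simp only [classS_iff, classT_iff]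

end Pool.Agent.HopfEnd
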