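import Pool.Agent.HopfEnd.End
import Pool.Agent.HopfEnd.Statement
import Pool.Agent.HopfCov.Inv

/-!
# One standard end suffices
-/

set_option autoImplicit false

open scoped ContDiff Topology Manifold
open Set Filter Metric Topology

namespace Pool.Agent.HopfEnd

open Pool.Agent.HopfCov Pool.Agent.HopfCov.Smooth

/-- the inclusion of the punctured space is a local diffeomorphism -/
theorem lda_val (x : V4) : LDA (fun y : V4 => (y : E4)) x := by
  let c : OpenPartialHomeomorph V4 E4 := V4.openPartialHomeomorphSubtypeCoe ⟨x⟩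
  refine ⟨{ toPartialEquiv := c.toPartialEquiv
            open_source := c.open_source
            open_target := c.open_target
            contMDiffOn_toFun := ?_
            contMDiffOn_invFun := ?_ }, ?_, ?_⟩
  · exact contMDiff_subtype_val.contMDiffOn
  · intro y hy
    refine ContMDiffAt.contMDiffWithinAt ?_
    rw [← ContMDiffAt.subtypeVal_comp_iff]
    refine contMDiffAt_id.congr_of_eventuallyEq ?_
    filter_upwards [c.open_target.mem_nhds hy] with w hw
    exact c.right_inv hw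
  · exact mem_univ x
  · intro y _
    rfl

/-- translations are local diffeomorphisms -/
theorem lda_sub (c x : E4) : LDA (fun z : E4 => z - c) x := by
  rw [ldAt_iff]
  refine Filter.Eventually.of_forall fun w => ⟨(contDiff_id.sub contDiff_const).contDiffAt, ?_⟩
  have h1 : fderiv ℝ (fun z : E4 => z - c) w = ContinuousLinearMap.id ℝ E4 := by
    rw [fderiv_sub_const]
    exact fderiv_fun_id
  rw [h1]
  have h2 : (ContinuousLinearMap.id ℝ E4).det = 1 := by
    show LinearMap.det (LinearMap.id : E4 →ₗ[ℝ] E4) = 1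
    exact LinearMap.det_id
  rw [h2]
  exact one_ne_zero

/-- charts are local diffeomorphisms -/
theorem lda_chart {R : Type} [TopologicalSpace R] [ChartedSpace E4 R] [IsManifold (𝓡 4) ∞ R]
    (y : R) {x : R} (hx : x ∈ (chartAt E4 y).source) : LDA (chartAt E4 y) x :=
  ⟨{ toPartialEquiv := (chartAt E4 y).toPartialEquiv
     open_source := (chartAt E4 y).open_source
     open_target := (chartAt E4 y).open_target
     contMDiffOn_toFun := contMDiffOn_chart
     contMDiffOn_invFun := contMDiffOn_chart_symm }, hx, fun _ _ => rfl⟩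

/-- from the homeomorphism of `R` to a diffeomorphism of `X` onto the punctured space -/
theorem diffeo_punctured {R : Type} [TopologicalSpace R] {X : Mfd4} {y : R} {ι : X → R}
    (hι : IsOpenEmbedding ι) (hr : range ι = {y}ᶜ) (Ψ : R ≃ₜ E4) (hΨ : Ψ y = 0)
    (h : ∀ x : X, LDA (X := X.carrier) (fun z => Ψ (ι z)) x) : Diffeomorphic X Punctured := by
  have hne : ∀ x : X, Ψ (ι x) ≠ 0 := by
    intro x hx
    have h1 : ι x = y := Ψ.injective (hx.trans hΨ.symm)
    have h2 : ι x ∈ ({y}ᶜ : Set R) := hr ▸ mem_range_self x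
    exact h2 h1
  set f : X.carrier → V4 := fun x => ⟨Ψ (ι x), hne x⟩ with hf
  have hfs : Function.Surjective f := by
    intro v
    have h1 : Ψ.symm (v : E4) ∈ ({y}ᶜ : Set R) := by
      intro h2
      have h3 : Ψ.symm (v : E4) = y := h2
      have h4 : (v : E4) = 0 := by rw [← hΨ, ← h3, Ψ.apply_symm_apply]
      exact v.2 h4
    rw [← hr] at h1
    obtain ⟨x, hx⟩ := h1
    refine ⟨x, Subtype.ext ?_⟩
    show Ψ (ι x) = v
    rw [hx, Ψ.apply_symm_apply]
  refine ⟨f, ⟨fun x x' hx => ?_, hfs⟩, fun x => ?_⟩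
  · exact hι.injective (Ψ.injective (congrArg Subtype.val hx))
  · have hc : ContinuousAt f x :=
      ((Ψ.continuous.comp hι.continuous).subtype_mk _).continuousAt
    exact LDA.of_comp (X := X.carrier) (Y := V4) (f := f) (g := fun v : V4 => (v : E4)) hc
      (lda_val _) (h x)

/-- **Theorem E**, first form: if `R ∖ y` covers `M` and `R` is homeomorphic to `ℝ⁴`, then `R` is
diffeomorphic to `ℝ⁴` -/
theorem complement_standard {M X R : Mfd4} (hM : HomeoS1S3 M ∨ HomeoTwisted M)
    (hR : HomeoR4 R) (hX : PointComplement X R) {p : X → M} (hp : IsCoveringMap p)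
    (hpl : LocalDiffeo p) : Diffeomorphic R Euclid ∧ Diffeomorphic X Punctured := by
  obtain ⟨H₀⟩ : Nonempty (R.carrier ≃ₜ E4) := hR
  obtain ⟨ι, y, hιl, hιi, hr⟩ := hX
  have hιl' : IsLocalDiffeomorph (𝓡 4) (𝓡 4) ∞ (M := X.carrier) (N := R.carrier) ι := hιl
  have hι : IsOpenEmbedding (X := X.carrier) (Y := R.carrier) ι :=
    IsOpenEmbedding.of_continuous_injective_isOpenMap hιl'.contMDiff.continuous hιi
      hιl'.isOpenMap
  set H : R.carrier ≃ₜ E4 := H₀.trans (Homeomorph.subRight (H₀ y)) with hH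
  have hHy : H y = 0 := sub_self _
  set c : E4 := chartAt E4 y y with hc
  set φ : OpenPartialHomeomorph R.carrier E4 :=
    (chartAt E4 y).transHomeomorph (Homeomorph.subRight c) with hφ
  have hφa : ∀ x, φ x = chartAt E4 y x - c := fun x => rfl
  have hφs : φ.source = (chartAt E4 y).source := rfl
  have hy : y ∈ φ.source := mem_chart_source E4 y
  have hy0 : φ y = 0 := sub_self _
  have hφl : ∀ x : R, x ∈ φ.source → LDA (X := R.carrier) φ x := by
    intro x hx
    exact LDA.comp' (X := R.carrier) (f := chartAt E4 y) (g := fun z : E4 => z - c)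
      (lda_sub c _) (lda_chart (R := R.carrier) y hx)
  obtain ⟨Ψ, h1, h2⟩ := end_main hM H hHy hι hr φ hy hy0 (fun x hx =>
    LDA.comp' (X := X.carrier) (Y := R.carrier) (f := ι) (g := φ) (hφl _ hx) (hιl x)) hp hpl
  have hΨy : Ψ y = 0 := by rw [h1.self_of_nhds, hy0]
  refine ⟨⟨Ψ, Ψ.bijective, fun x => ?_⟩, diffeo_punctured hι hr Ψ hΨy h2⟩
  by_cases hx : x = y
  · rw [hx]
    exact (hφl y hy).congr' (h1.mono fun z hz => hz.symm)
  · have hx' : x ∈ range ι := by rw [hr]; exact hx
    obtain ⟨x', rfl⟩ := hx'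
    exact LDA.of_comp_right (X := X.carrier) (Y := R.carrier) (f := ι) (g := Ψ) (hιl x') (h2 x')

/-- both ends of the punctured space play the same role -/
theorem end_zero {X : Type} [TopologicalSpace X] [ChartedSpace E4 X] [IsManifold (𝓡 4) ∞ X]
    (e : V4 ≃ₜ X) {ε : ℝ}
    (hε : 0 < ε) (h : (∀ x : V4, ‖(x : E4)‖ < ε → LDA e x) ∨ ∀ x : V4, ε < ‖(x : E4)‖ → LDA e x) :
    ∃ (e : V4 ≃ₜ X) (ε : ℝ), 0 < ε ∧ ∀ x : V4, ‖(x : E4)‖ < ε → LDA e x := by
  rcases h with h | h
  · exact ⟨e, ε, hε, h⟩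
  · obtain ⟨J, hJ, -, hJx⟩ := inversion_data
    refine ⟨J.trans e, ε⁻¹, inv_pos.2 hε, fun x hx => ?_⟩
    have hx0 : 0 < ‖(x : E4)‖ := norm_pos_iff.2 x.2
    have h1 : ‖(J x : E4)‖ = ‖(x : E4)‖⁻¹ := by
      rw [hJx, norm_smul, norm_inv, norm_pow, norm_norm]
      field_simp
    have h2 : ε < ‖(J x : E4)‖ := by
      rw [h1]
      exact (lt_inv_comm₀ hε hx0).2 hx
    exact LDA.comp' (f := J) (g := e) (h _ h2) (hJ x)

theorem oneEnd_zero {X : Mfd4} (hX : OneEnd X) : ∃ (e : V4 ≃ₜ X.carrier) (ε : ℝ), 0 < ε ∧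
    ∀ x : V4, ‖(x : E4)‖ < ε → LDA (Y := X.carrier) e x := by
  obtain ⟨e, ε, hε, hX⟩ := hX
  exact end_zero (X := X.carrier) (show V4 ≃ₜ X.carrier from e) hε hX

/-- **Theorem E**, second form: if `X` covers `M` and one end of `X` is standard, then `X` is
diffeomorphic to `ℝ⁴ ∖ 0` -/
theorem oneEnd_standard {M X : Mfd4} (hM : HomeoS1S3 M ∨ HomeoTwisted M) (hX : OneEnd X)
    {p : X → M} (hp : IsCoveringMap p) (hpl : LocalDiffeo p) : Diffeomorphic X Punctured := by
  obtain ⟨e, ε, hε, hε'⟩ := oneEnd_zero hX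
  set ι : X.carrier → E4 := fun x => ((e.symm x : V4) : E4) with hι
  have hιo : IsOpenEmbedding ι :=
    V4.isOpen.isOpenEmbedding_subtypeVal.comp e.symm.isOpenEmbedding
  have hr : range ι = {(0 : E4)}ᶜ := by
    ext z
    constructor
    · rintro ⟨x, rfl⟩
      exact (e.symm x).2
    · intro hz
      refine ⟨e ⟨z, hz⟩, ?_⟩
      show ((e.symm (e ⟨z, hz⟩) : V4) : E4) = z
      rw [e.symm_apply_apply]
  set φ : OpenPartialHomeomorph E4 E4 :=
    (OpenPartialHomeomorph.refl E4).restrOpen (ball 0 ε) isOpen_ball with hφ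
  have hφs : ∀ z, z ∈ φ.source ↔ ‖z‖ < ε := by
    intro z
    rw [hφ, OpenPartialHomeomorph.restrOpen_source]
    constructor
    · rintro ⟨-, h⟩
      exact mem_ball_zero_iff.1 h
    · intro h
      exact ⟨trivial, mem_ball_zero_iff.2 h⟩
  have hφl : ∀ x : X, ι x ∈ φ.source → LDA (X := X.carrier) (fun z => φ (ι z)) x := by
    intro x hx
    have h3 : ‖((e.symm x : V4) : E4)‖ < ε := (hφs _).1 hx
    have h4 : LDA (Y := X.carrier) (fun v => e v) (e.symm x) := hε' _ h3
    have h5 : LDA (X := X.carrier) e.symm x := by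
      have := LDA.symm' (Y := X.carrier) (F := e) h4
      rwa [e.apply_symm_apply] at this
    exact LDA.comp' (X := X.carrier) (f := e.symm) (g := fun v : V4 => (v : E4)) (lda_val _) h5
  obtain ⟨Ψ, h1, h2⟩ := end_main (R := E4) hM (Homeomorph.refl E4) (y := 0) rfl hιo hr φ
    ((hφs 0).2 (by rw [norm_zero]; exact hε)) rfl hφl hp hpl
  exact diffeo_punctured hιo hr Ψ (by rw [h1.self_of_nhds]; rfl) h2

/-- a covering space diffeomorphic to the punctured space can be replaced by the punctured space -/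
theorem univ_of_diffeo {M X : Mfd4} (h : Diffeomorphic X Punctured) {p : X → M}
    (hp : IsCoveringMap p) (hpl : LocalDiffeo p) :
    ∃ q : Punctured → M, IsCoveringMap q ∧ LocalDiffeo q := by
  obtain ⟨F, hF⟩ := h
  set F' : X.carrier ≃ₜ Punctured.carrier := toHomeo hF with hF'
  have h1 : ∀ x, LDA (X := X.carrier) (Y := Punctured.carrier) F' x := fun x => hF.2 x
  refine ⟨fun v => p (F'.symm v), hp.comp_homeomorph F'.symm, fun v => ?_⟩
  have h2 : LDA (X := Punctured.carrier) (Y := X.carrier) F'.symm v := by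
    have := LDA.symm' (X := X.carrier) (Y := Punctured.carrier) (h1 (F'.symm v))
    rwa [F'.apply_symm_apply] at this
  exact LDA.comp' (X := Punctured.carrier) (Y := X.carrier) (Z := M.carrier) (f := F'.symm)
    (g := p) (hpl _) h2

/-- **Theorem E** -/
theorem univ_of_endStandard {M : Mfd4} (hM : HomeoS1S3 M ∨ HomeoTwisted M) (h : EndStandard M) :
    ∃ q : Punctured → M, IsCoveringMap q ∧ LocalDiffeo q := by
  obtain ⟨X, ⟨p, hp, hpl⟩, h1 | ⟨R, hR, h2⟩⟩ := h
  · exact univ_of_diffeo (oneEnd_standard hM h1 hp hpl) hp hpl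
  · exact univ_of_diffeo (complement_standard hM hR h2 hp hpl).2 hp hpl

end Pool.Agent.HopfEnd
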