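import Pool.Agent.HopfRem.Prof
import Pool.Agent.HopfRem.Perf1

/-!
# Making a homeomorphism contracting away from a ball

If `h` maps the ball of radius `b` into the ball of radius `b / 2`, there is a radial homeomorphism
`ρ`, the identity on the ball of radius `b / 2`, such that `ρ ∘ h` satisfies
`‖ρ (h x)‖ ≤ max (3 b / 4) (‖x‖ / 2)` for all `x`.
-/

set_option autoImplicit false

open scoped ContDiff Topology
open Set Filter Metric

namespace Pool.Agent.HopfEnd

open Pool.Agent.HopfCov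

theorem exists_squeeze (h : E4 ≃ₜ E4) {b : ℝ} (hb : 0 < b) :
    ∃ ρ : E4 ≃ₜ E4, ρ 0 = 0 ∧ (∀ x, x ≠ 0 → RG ρ x) ∧ (∀ x, ‖x‖ ≤ b / 2 → ρ x = x) ∧
      ∀ x, ‖ρ (h x)‖ ≤ max (3 * b / 4) (‖x‖ / 2) := by
  set m : ℝ → ℝ := fun v => sSup ((fun z : E4 => Real.log ‖h z‖) '' {z | ‖z‖ ≤ 2 * Real.exp v})
    with hm
  have hbdd : ∀ v, BddAbove ((fun z : E4 => Real.log ‖h z‖) '' {z | ‖z‖ ≤ 2 * Real.exp v}) := by
    intro v
    obtain ⟨R, hR⟩ := bounded_image h (2 * Real.exp v)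
    refine ⟨R, ?_⟩
    rintro _ ⟨z, hz, rfl⟩
    exact (Real.log_le_self (norm_nonneg _)).trans (hR z hz)
  have hmono : Monotone m := by
    intro u v huv
    refine csSup_le_csSup (hbdd v) ⟨_, 0, by simp; positivity, rfl⟩ (image_mono fun z hz => ?_)
    have hz' : ‖z‖ ≤ 2 * Real.exp u := hz
    have : Real.exp u ≤ Real.exp v := Real.exp_le_exp.2 huv
    show ‖z‖ ≤ 2 * Real.exp v
    linarith
  obtain ⟨e, D, he, d1, d2, d3, d4, d5⟩ := prof_upper hmono
    (Real.log_lt_log (show 0 < b / 2 by positivity) (show b / 2 < 3 * b / 4 by linarith))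
  have hP : SmProf e := ⟨D, he, d1, d2⟩
  have hPD : PD 1 ((rad e : E4 ≃ₜ E4)⁻¹) := by
    have := hP.PD (E := E4)
    exact this.inv
  refine ⟨(rad e)⁻¹, hPD.1, fun x hx => (hPD.2 x hx).rg, fun x hx => ?_, fun x => ?_⟩
  · have h1 : (rad e : E4 ≃ₜ E4) x = x := by
      by_cases hx0 : x = 0
      · rw [hx0, rad_apply, radFun_zero]
      · rw [rad_apply, radFun_ne _ hx0, he, d3 _ (Real.log_le_log (norm_pos_iff.2 hx0) hx), sub_self,
          Real.exp_zero, one_smul]
    conv_lhs => rw [← h1]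
    exact inv_apply_self' _ _
  · by_contra hcon
    push Not at hcon
    set y : E4 := ((rad e : E4 ≃ₜ E4)⁻¹ : E4 ≃ₜ E4) (h x) with hy
    have hpos : 0 < max (3 * b / 4) (‖x‖ / 2) :=
      lt_of_lt_of_le (by positivity) (le_max_left _ _)
    have hy0 : y ≠ 0 := by
      rw [← norm_pos_iff]
      exact hpos.trans hcon
    set v : ℝ := Real.log (max (3 * b / 4) (‖x‖ / 2)) with hv
    have h1 : v < Real.log ‖y‖ := Real.log_lt_log hpos hcon
    have h2 : Real.log (3 * b / 4) ≤ v := Real.log_le_log (by positivity) (le_max_left _ _)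
    have h3 : Real.log ‖h x‖ ≤ m v := by
      refine le_csSup (hbdd v) ⟨x, ?_, rfl⟩
      show ‖x‖ ≤ 2 * Real.exp v
      rw [hv, Real.exp_log hpos]
      have := le_max_right (3 * b / 4) (‖x‖ / 2)
      linarith
    have h4 : (rad e : E4 ≃ₜ E4) y = h x := apply_inv_self' _ _
    have h5 : Real.log ‖h x‖ = e (Real.log ‖y‖) := by
      rw [← h4, rad_apply, norm_radFun _ hy0, Real.log_exp]
    have h6 : e v < e (Real.log ‖y‖) := e.strictMono h1
    have h7 := d4 _ h2
    rw [← he] at h7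
    linarith

theorem pow_squeeze {f : E4 ≃ₜ E4} {b : ℝ} (hb : 0 < b)
    (hf : ∀ x, ‖f x‖ ≤ max (3 * b / 4) (‖x‖ / 2)) (x : E4) : ∃ k : ℕ, ‖(f ^ k) x‖ < b := by
  have h1 : ∀ k : ℕ, ‖(f ^ k) x‖ ≤ max (3 * b / 4) (‖x‖ * (1 / 2) ^ k) := by
    intro k
    induction k with
    | zero => simp
    | succ k ih =>
      rw [pow_succ', mul_apply']
      refine (hf _).trans (max_le (le_max_left _ _) ?_)
      rcases le_max_iff.1 ih with h | h
      · refine le_max_of_le_left ?_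
        have : 0 < 3 * b / 4 := by positivity
        linarith
      · refine le_max_of_le_right ?_
        rw [pow_succ]
        linarith
  have h2 : Tendsto (fun k : ℕ => ‖x‖ * (1 / 2 : ℝ) ^ k) atTop (𝓝 (‖x‖ * 0)) :=
    (tendsto_pow_atTop_nhds_zero_of_lt_one (by norm_num) (by norm_num)).const_mul _
  rw [mul_zero] at h2
  obtain ⟨k, hk⟩ := (h2.eventually (gt_mem_nhds hb)).exists
  exact ⟨k, (h1 k).trans_lt (max_lt (by linarith) hk)⟩

end Pool.Agent.HopfEnd
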