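import Pool.Agent.HopfEnd.Wander
import Pool.Agent.HopfEnd.Squeeze
import Pool.Agent.HopfRem.GermE

/-!
# A contraction of a space `R` whose fixed point has a chart in which the germ of the contraction is
smooth off the fixed point

Then `R` is homeomorphic to `ℝ⁴` by an extension of the chart which conjugates a power of the
contraction to a diffeomorphism of `ℝ⁴ ∖ 0`.
-/

set_option autoImplicit false

open scoped ContDiff Topology
open Set Filter Metric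

namespace Pool.Agent.HopfEnd

open Pool.Agent.HopfCov

/-- the powers of `G` converge to `y`, uniformly near every point -/
def Attr {R : Type} [TopologicalSpace R] (G : R ≃ₜ R) (y : R) : Prop :=
  ∀ x, ∃ V ∈ 𝓝 x, ∀ U ∈ 𝓝 y, ∃ n₀ : ℕ, ∀ n ≥ n₀, ∀ z ∈ V, (G ^ n) z ∈ U

theorem pow_fix {R : Type} [TopologicalSpace R] {G : R ≃ₜ R} {y : R} (h : G y = y) (n : ℕ) :
    (G ^ n) y = y := by
  induction n with
  | zero => rfl
  | succ n ih => rw [pow_succ', homeo_mul_apply, ih, h]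

theorem standard_end {R : Type} [TopologicalSpace R] {G : R ≃ₜ R} {y : R}
    (φ : OpenPartialHomeomorph R E4) (hy : y ∈ φ.source) (hy0 : φ y = 0) (hGy : G y = y)
    (hA : Attr G y)
    (hreg : ∀ᶠ x in 𝓝 (0 : E4), x ≠ 0 → RG (fun z => φ (G (φ.symm z))) x) :
    ∃ (h : E4 ≃ₜ E4) (Ψ : R ≃ₜ E4) (n : ℕ), 0 < n ∧ h 0 = 0 ∧ (∀ x, x ≠ 0 → RG h x) ∧
      (∀ᶠ x in 𝓝 y, Ψ x = φ x) ∧ ∀ x, Ψ ((G ^ n) x) = h (Ψ x) := by
  have hs0 : φ.symm 0 = y := by rw [← hy0, φ.left_inv hy]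
  have ht0 : (0 : E4) ∈ φ.target := by rw [← hy0]; exact φ.map_source hy
  -- step 1: extension of the germ
  obtain ⟨ε, hε, hε'⟩ := Metric.eventually_nhds_iff_ball.1 hreg
  set γ₀ : OpenPartialHomeomorph E4 E4 :=
    (φ.symm.trans (G.toOpenPartialHomeomorph.trans φ)) with hγ₀
  set γ : OpenPartialHomeomorph E4 E4 := γ₀.restrOpen (ball 0 ε) isOpen_ball with hγ
  have hγapp : ∀ z, γ z = φ (G (φ.symm z)) := fun z => rfl
  have hγ0 : (0 : E4) ∈ γ.source := by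
    rw [hγ, OpenPartialHomeomorph.restrOpen_source]
    refine ⟨?_, mem_ball_self hε⟩
    rw [hγ₀, OpenPartialHomeomorph.trans_source]
    refine ⟨ht0, ?_⟩
    rw [mem_preimage, OpenPartialHomeomorph.trans_source]
    refine ⟨trivial, ?_⟩
    show G (φ.symm 0) ∈ φ.source
    rw [hs0, hGy]
    exact hy
  obtain ⟨h₁, hh₁, hh₁r⟩ := germ_extend hdim4 γ hγ0 (by
    intro x hx hx0
    rw [hγ, OpenPartialHomeomorph.restrOpen_source] at hx
    exact hε' x hx.2 hx0)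
  have hh₁0 : h₁ 0 = 0 := by
    rw [hh₁.self_of_nhds, hγapp, hs0, hGy, hy0]
  -- step 2: a ball on which everything is defined
  have e2 : ∀ᶠ z in 𝓝 (0 : E4), z ∈ φ.target ∧ h₁ z = φ (G (φ.symm z)) := by
    filter_upwards [φ.open_target.mem_nhds ht0, hh₁] with z hz hz'
    exact ⟨hz, hz'⟩
  obtain ⟨δ, hδ, hδ'⟩ := Metric.eventually_nhds_iff_ball.1 e2
  set W : Set R := {x | x ∈ φ.source ∧ ‖φ x‖ < δ} with hW
  have hball : ∀ r : ℝ, 0 < r → {x | x ∈ φ.source ∧ ‖φ x‖ < r} ∈ 𝓝 y := by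
    intro r hr
    have h1 : ∀ᶠ x in 𝓝 y, ‖φ x‖ < r := by
      exact (φ.continuousAt hy).norm.eventually (gt_mem_nhds (show ‖φ y‖ < r by
        rw [hy0, norm_zero]
        exact hr))
    filter_upwards [φ.open_source.mem_nhds hy, h1] with x hx hx'
    exact ⟨hx, hx'⟩
  -- step 3: stability
  obtain ⟨V, hV, hVU⟩ := hA y
  obtain ⟨n₀, hn₀⟩ := hVU W (hball δ hδ)
  have e3 : ∀ᶠ x in 𝓝 y, ∀ j ∈ Finset.range n₀, (G ^ j) x ∈ W := by
    rw [Filter.eventually_all_finset]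
    intro j _
    have h1 : Tendsto (fun x => (G ^ j) x) (𝓝 y) (𝓝 y) := by
      have := (G ^ j).continuous.tendsto y
      rwa [pow_fix hGy] at this
    exact h1.eventually (hball δ hδ)
  have e4 : ∀ᶠ x in 𝓝 y, x ∈ V ∧ ∀ j : ℕ, (G ^ j) x ∈ W := by
    filter_upwards [hV, e3] with x hx hx'
    refine ⟨hx, fun j => ?_⟩
    by_cases hj : j < n₀
    · exact hx' j (Finset.mem_range.2 hj)
    · exact hn₀ j (not_lt.1 hj) x hx
  -- step 4: equality of the orbits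
  have e5 : ∀ x, (∀ j : ℕ, (G ^ j) x ∈ W) → ∀ j : ℕ, φ ((G ^ j) x) = (h₁ ^ j) (φ x) := by
    intro x hx j
    induction j with
    | zero => rfl
    | succ j ih =>
      obtain ⟨h2, h3⟩ := hx j
      have h4 := (hδ' (φ ((G ^ j) x)) (mem_ball_zero_iff.2 h3)).2
      rw [φ.left_inv h2] at h4
      rw [pow_succ', homeo_mul_apply, pow_succ', homeo_mul_apply, ← h4, ih]
  -- step 5: the small ball
  have e6 : ∀ᶠ z in 𝓝 (0 : E4), z ∈ φ.target ∧ φ.symm z ∈ V ∧ ∀ j : ℕ, (G ^ j) (φ.symm z) ∈ W := by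
    have h1 : Tendsto φ.symm (𝓝 0) (𝓝 y) := by
      have := φ.continuousAt_symm ht0
      rwa [ContinuousAt, hs0] at this
    filter_upwards [φ.open_target.mem_nhds ht0, h1.eventually e4] with z hz hz'
    exact ⟨hz, hz'⟩
  obtain ⟨b, hb, hb'⟩ := Metric.eventually_nhds_iff_ball.1 e6
  obtain ⟨n₁, hn₁⟩ := hVU _ (hball (b / 2) (by positivity))
  set n : ℕ := n₁ + 1 with hn
  set h : E4 ≃ₜ E4 := h₁ ^ n with hh
  have hh0 : h 0 = 0 := pow_fix hh₁0 n
  have hhr : ∀ x, x ≠ 0 → RG h x := by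
    have h1 : ∀ k : ℕ, ∀ x, x ≠ 0 → RG (h₁ ^ k : E4 ≃ₜ E4) x := by
      intro k
      induction k with
      | zero => intro x _; exact RG_id x
      | succ k ih =>
        intro x hx
        rw [pow_succ']
        refine RG.mul (hh₁r _ ?_) (ih x hx)
        intro h0
        have h2 : (h₁ ^ k) (0 : E4) = 0 := pow_fix hh₁0 k
        exact hx ((h₁ ^ k).injective (h0.trans h2.symm))
    exact h1 n
  obtain ⟨ρ, ρ0, ρr, ρid, ρsq⟩ := exists_squeeze h hb
  have hs : IsOpen (φ.source ∩ φ ⁻¹' ball 0 b) := φ.isOpen_inter_preimage isOpen_ball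
  set ψ : OpenPartialHomeomorph R E4 := φ.restrOpen _ hs with hψ
  have hψs : ∀ x, x ∈ ψ.source ↔ x ∈ φ.source ∧ ‖φ x‖ < b := by
    intro x
    rw [hψ, OpenPartialHomeomorph.restrOpen_source]
    constructor
    · rintro ⟨h1, -, h2⟩
      exact ⟨h1, mem_ball_zero_iff.1 h2⟩
    · rintro ⟨h1, h2⟩
      exact ⟨h1, h1, mem_ball_zero_iff.2 h2⟩
  have hψa : ∀ x, ψ x = φ x := fun x => rfl
  have key : ∀ x ∈ ψ.source, (G ^ n) x ∈ φ.source ∧ ‖φ ((G ^ n) x)‖ < b / 2 ∧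
      φ ((G ^ n) x) = h (φ x) := by
    intro x hx
    obtain ⟨h1, h2⟩ := (hψs x).1 hx
    obtain ⟨-, h3, h4⟩ := hb' (φ x) (mem_ball_zero_iff.2 h2)
    rw [φ.left_inv h1] at h3 h4
    obtain ⟨h5, h6⟩ := hn₁ n (by omega) x h3
    exact ⟨h5, h6, e5 x h4 n⟩
  have hAtt : Att (G ^ n) (ρ * h) ψ := by
    refine ⟨fun x hx => ?_, fun x hx => ?_, fun x => ?_, fun z => ?_⟩
    · obtain ⟨h1, h2, -⟩ := key x hx
      exact (hψs _).2 ⟨h1, by linarith⟩
    · obtain ⟨-, h2, h3⟩ := key x hx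
      rw [hψa, hψa, h3, homeo_mul_apply]
      rw [h3] at h2
      exact (ρid _ h2.le).symm
    · obtain ⟨V', hV', hV'U⟩ := hA x
      obtain ⟨k, hk⟩ := hV'U _ (hball b hb)
      refine ⟨k, (hψs _).2 ?_⟩
      rw [← pow_mul]
      exact hk (n * k) (Nat.le_mul_of_pos_left k (by omega)) x (mem_of_mem_nhds hV')
    · obtain ⟨k, hk⟩ := pow_squeeze (f := ρ * h) hb ρsq z
      refine ⟨k, ?_⟩
      obtain ⟨h1, -⟩ := hb' _ (mem_ball_zero_iff.2 hk)
      have h2 : ψ.symm (((ρ * h) ^ k) z) ∈ ψ.source := by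
        rw [hψs]
        refine ⟨φ.map_target h1, ?_⟩
        show ‖φ (φ.symm (((ρ * h) ^ k) z))‖ < b
        rw [φ.right_inv h1]
        exact hk
      have h3 := ψ.map_source h2
      have h4 : ψ (ψ.symm (((ρ * h) ^ k) z)) = ((ρ * h) ^ k) z := φ.right_inv h1
      rwa [h4] at h3
  refine ⟨ρ * h, wanHomeo hAtt, n, by omega, ?_, fun x hx => ?_, ?_, fun x => ?_⟩
  · rw [homeo_mul_apply, hh0, ρ0]
  · refine RG.mul (ρr _ ?_) (hhr x hx)
    intro h0
    exact hx (h.injective (h0.trans hh0.symm))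
  · filter_upwards [hball b hb] with x hx
    exact wan_of_mem hAtt ((hψs x).2 hx)
  · exact wan_conj hAtt x

end Pool.Agent.HopfEnd
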