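import Mathlib

/-!
# Extension of a conjugation of attracting germs

`F : R ≃ₜ R` and `h : E ≃ₜ E` are homeomorphisms of topological spaces, `φ` a homeomorphism of an
open set of `R` onto an open set of `E`, both open sets are mapped into themselves and absorb every
point, and `φ` conjugates `F` to `h` there. Then `φ` extends to a homeomorphism `R → E` which
conjugates `F` to `h`.
-/

set_option autoImplicit false

open scoped Topology
open Set Filter

namespace Pool.Agent.HopfEnd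

variable {R E : Type} [TopologicalSpace R] [TopologicalSpace E]

/-- `φ` conjugates `F` to `h` on an absorbing open set -/
structure Att (F : R ≃ₜ R) (h : E ≃ₜ E) (φ : OpenPartialHomeomorph R E) : Prop where
  maps : ∀ x ∈ φ.source, F x ∈ φ.source
  eq : ∀ x ∈ φ.source, φ (F x) = h (φ x)
  abs : ∀ x, ∃ k : ℕ, (F ^ k) x ∈ φ.source
  abs' : ∀ z, ∃ k : ℕ, (h ^ k) z ∈ φ.target

variable {F : R ≃ₜ R} {h : E ≃ₜ E} {φ : OpenPartialHomeomorph R E}

theorem Att.symm (H : Att F h φ) : Att h F φ.symm := by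
  have key : ∀ z ∈ φ.target, φ.symm z ∈ φ.source ∧ h z = φ (F (φ.symm z)) := by
    intro z hz
    refine ⟨φ.map_target hz, ?_⟩
    rw [H.eq _ (φ.map_target hz), φ.right_inv hz]
  refine ⟨fun z hz => ?_, fun z hz => ?_, ?_, ?_⟩
  · obtain ⟨h1, h2⟩ := key z hz
    rw [h2]
    exact φ.map_source (H.maps _ h1)
  · obtain ⟨h1, h2⟩ := key z hz
    rw [h2, φ.left_inv (H.maps _ h1)]
  · exact H.abs'
  · exact H.abs

/-- the extension -/
noncomputable def wan (H : Att F h φ) (x : R) : E :=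
  ((h ^ (H.abs x).choose)⁻¹ : E ≃ₜ E) (φ ((F ^ (H.abs x).choose) x))

theorem homeo_inv_apply_self (f : R ≃ₜ R) (x : R) : (f⁻¹ : R ≃ₜ R) (f x) = x :=
  f.symm_apply_apply x

theorem homeo_apply_inv_self (f : R ≃ₜ R) (x : R) : f ((f⁻¹ : R ≃ₜ R) x) = x :=
  f.apply_symm_apply x

theorem homeo_mul_apply (f g : R ≃ₜ R) (x : R) : (f * g) x = f (g x) := rfl

theorem Att.add (H : Att F h φ) {k : ℕ} {x : R} (hk : (F ^ k) x ∈ φ.source) (j : ℕ) :
    (F ^ (k + j)) x ∈ φ.source ∧
      ((h ^ (k + j))⁻¹ : E ≃ₜ E) (φ ((F ^ (k + j)) x)) = ((h ^ k)⁻¹ : E ≃ₜ E) (φ ((F ^ k) x)) := by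
  induction j with
  | zero => exact ⟨hk, rfl⟩
  | succ j ih =>
    have e : (F ^ (k + (j + 1))) x = F ((F ^ (k + j)) x) := by
      rw [← add_assoc, pow_succ', homeo_mul_apply]
    have e' : (h ^ (k + (j + 1)))⁻¹ = (h ^ (k + j))⁻¹ * h⁻¹ := by
      rw [← add_assoc, pow_succ', mul_inv_rev]
    refine ⟨?_, ?_⟩
    · rw [e]
      exact H.maps _ ih.1
    · rw [e, H.eq _ ih.1, e', homeo_mul_apply, homeo_inv_apply_self]
      exact ih.2

theorem wan_eq (H : Att F h φ) {k : ℕ} {x : R} (hk : (F ^ k) x ∈ φ.source) :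
    wan H x = ((h ^ k)⁻¹ : E ≃ₜ E) (φ ((F ^ k) x)) := by
  have h1 := (H.add (H.abs x).choose_spec k).2
  have h2 := (H.add hk (H.abs x).choose).2
  rw [add_comm k] at h2
  rw [wan, ← h1, h2]

theorem wan_local (H : Att F h φ) {k : ℕ} {x : R} (hk : (F ^ k) x ∈ φ.source) :
    ∀ᶠ y in 𝓝 x, wan H y = ((h ^ k)⁻¹ : E ≃ₜ E) (φ ((F ^ k) y)) := by
  have h1 : ∀ᶠ y in 𝓝 x, (F ^ k) y ∈ φ.source :=
    (F ^ k).continuous.continuousAt.eventually (φ.open_source.mem_nhds hk)
  exact h1.mono fun y hy => wan_eq H hy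

theorem wan_continuous (H : Att F h φ) : Continuous (wan H) := by
  rw [continuous_iff_continuousAt]
  intro x
  obtain ⟨k, hk⟩ := H.abs x
  have h1 : ContinuousAt (fun y => ((h ^ k)⁻¹ : E ≃ₜ E) (φ ((F ^ k) y))) x :=
    ((h ^ k)⁻¹ : E ≃ₜ E).continuous.continuousAt.comp
      (ContinuousAt.comp (g := φ) (f := fun y => (F ^ k) y) (φ.continuousAt hk)
        (F ^ k).continuous.continuousAt)
  exact h1.congr ((wan_local H hk).mono fun y hy => hy.symm)

theorem wan_wan (H : Att F h φ) (x : R) : wan H.symm (wan H x) = x := by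
  obtain ⟨k, hk⟩ := H.abs x
  have h1 : (h ^ k) (wan H x) = φ ((F ^ k) x) := by
    rw [wan_eq H hk, homeo_apply_inv_self]
  have h2 : (h ^ k) (wan H x) ∈ φ.symm.source := by
    rw [h1]
    exact φ.map_source hk
  rw [wan_eq H.symm h2, h1, φ.left_inv hk, homeo_inv_apply_self]

/-- the extension as a homeomorphism -/
noncomputable def wanHomeo (H : Att F h φ) : R ≃ₜ E where
  toFun := wan H
  invFun := wan H.symm
  left_inv := wan_wan H
  right_inv := fun z => wan_wan H.symm z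
  continuous_toFun := wan_continuous H
  continuous_invFun := wan_continuous H.symm

theorem wanHomeo_apply (H : Att F h φ) (x : R) : wanHomeo H x = wan H x := rfl

theorem wan_of_mem (H : Att F h φ) {x : R} (hx : x ∈ φ.source) : wan H x = φ x := by
  have h1 : (F ^ 0) x ∈ φ.source := by simpa using hx
  rw [wan_eq H h1]
  simp

theorem wan_conj (H : Att F h φ) (x : R) : wan H (F x) = h (wan H x) := by
  obtain ⟨k, hk⟩ := H.abs x
  have h1 := (H.add hk 1).1
  have e : (F ^ (k + 1)) x = (F ^ k) (F x) := by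
    rw [pow_succ, homeo_mul_apply]
  have h2 : (F ^ k) (F x) ∈ φ.source := by rw [← e]; exact h1
  have e2 : (F ^ k) (F x) = F ((F ^ k) x) := by
    rw [← e, pow_succ', homeo_mul_apply]
  rw [wan_eq H hk, wan_eq H h2, e2, H.eq _ hk]
  have e3 : (h ^ k)⁻¹ * h = h * (h ^ k)⁻¹ := by
    have := (Commute.self_pow h k).inv_right.eq
    exact this.symm
  have e4 : ∀ z, ((h ^ k)⁻¹ : E ≃ₜ E) (h z) = h (((h ^ k)⁻¹ : E ≃ₜ E) z) := by
    intro z
    have := congrArg (fun f : E ≃ₜ E => f z) e3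
    exact this
  exact e4 _

end Pool.Agent.HopfEnd
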